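import Pool.Agent.TH692.FM2.Norm2

set_option autoImplicit false
set_option linter.dupNamespace false

/-! # Explicit fourth moment: the norm over `x > 2π`, end -/

namespace Pool.Agent.TH692.FM2

open Complex MeasureTheory Set Filter Topology Pool.Agent.TH158.FM Pool.Agent.TH525.FM
open scoped ENNReal

noncomputable section

theorem FM_bound (h1 : S_HIL) (h2 : S_LAP) {T : ℝ} (hT : 10 ^ 8 ≤ T) (M : ℕ) :
    ∫ x in Ioi (2 * Real.pi), ‖FM (1 / (2 * T)) M x‖ ^ 2 ≤
      (2970 / 10000 * Real.sqrt T * Real.log T ^ 2) ^ 2 := by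
  have hT0 : 0 < T := by norm_num at hT; linarith
  have hpi0 := Real.pi_pos
  have hpi2 := Real.pi_lt_d6
  set δ := 1 / (2 * T) with hδ
  have hδ0 : 0 < δ := by positivity
  have hδ1 : δ ≤ 1 / 2000 := by
    rw [hδ]
    apply one_div_le_one_div_of_le (by norm_num)
    linarith
  have hS0 : 0 < Real.sin δ := Real.sin_pos_of_pos_of_lt_pi hδ0 (by
    have := Real.pi_gt_three; linarith)
  have hS : δ * (1 - 1 / 10 ^ 6) ≤ Real.sin δ := by
    have h3 := Real.sin_gt_sub_cube hδ0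
    have h4 : δ ^ 2 ≤ (1 / 2000) ^ 2 := pow_le_pow_left₀ hδ0.le hδ1 2
    have h5 : δ ^ 3 / 6 ≤ δ * (1 / 10 ^ 6) := by
      have : δ ^ 3 / 6 = δ * (δ ^ 2 / 6) := by ring
      rw [this]
      apply mul_le_mul_of_nonneg_left _ hδ0.le
      norm_num at h4 ⊢
      linarith
    have h6 : δ * (1 - 1 / 10 ^ 6) = δ - δ * (1 / 10 ^ 6) := by ring
    rw [h6]
    linarith
  have hS' : Real.sin δ ≤ δ := Real.sin_le hδ0.le
  have hC : 1 - 1 / 10 ^ 6 ≤ Real.cos δ := by
    have h3 := Real.one_sub_sq_div_two_le_cos (x := δ)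
    have h4 : δ ^ 2 ≤ (1 / 2000) ^ 2 := pow_le_pow_left₀ hδ0.le hδ1 2
    norm_num at h4 ⊢
    linarith
  have hC0 : 0 < Real.cos δ := by norm_num at hC; linarith
  have hη0 : 0 < 4 * Real.pi * Real.sin δ := by positivity
  have hη1 : 4 * Real.pi * Real.sin δ ≤ 1 / 20 := by
    have h3 : Real.sin δ ≤ 1 / 2000 := hS'.trans hδ1
    nlinarith
  obtain ⟨l1, l0, l2⟩ := h2 (4 * Real.pi * Real.sin δ) M hη0 hη1
  have hh := h1 M dd (Real.sin δ) (Real.cos δ) (2 * Real.pi) hS0 hC0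
  have hexp : ∀ n : ℕ, Real.exp (-(2 * n * (2 * Real.pi) * Real.sin δ)) =
      Real.exp (-(4 * Real.pi * Real.sin δ * n)) := by
    intro n
    congr 1
    ring
  simp only [hexp] at hh
  have hdd : ∀ n, 0 ≤ dd n ^ 2 := fun n => by positivity
  refine le_trans hh ?_
  refine numeric hT rfl hS0 hS hS' hC l1 l0 l2 ?_ ?_
  · exact Finset.sum_nonneg fun n _ => by positivity
  · exact Finset.sum_nonneg fun n _ => by positivity

theorem FF_int (h1 : S_HIL) (h2 : S_LAP) {T : ℝ} (hT : 10 ^ 8 ≤ T) :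
    IntegrableOn (fun x : ℝ => ‖FF (1 / (2 * T)) x‖ ^ 2) (Ioi (2 * Real.pi)) ∧
    ∫ x in Ioi (2 * Real.pi), ‖FF (1 / (2 * T)) x‖ ^ 2 ≤
      (2970 / 10000 * Real.sqrt T * Real.log T ^ 2) ^ 2 ∧
    AEStronglyMeasurable (fun x : ℝ => FF (1 / (2 * T)) x)
      (volume.restrict (Ioi (2 * Real.pi))) := by
  have hT0 : 0 < T := by norm_num at hT; linarith
  have hpi0 := Real.pi_pos
  set δ := 1 / (2 * T) with hδ
  have hδ0 : 0 < δ := by positivity
  have hδ1 : δ ≤ 1 / 2000 := by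
    rw [hδ]
    apply one_div_le_one_div_of_le (by norm_num)
    linarith
  have hS0 : 0 < Real.sin δ := Real.sin_pos_of_pos_of_lt_pi hδ0 (by
    have := Real.pi_gt_three; linarith)
  set R2 := (2970 / 10000 * Real.sqrt T * Real.log T ^ 2) ^ 2 with hR2
  have hR20 : 0 ≤ R2 := by positivity
  have htend : ∀ᵐ x ∂(volume.restrict (Ioi (2 * Real.pi))),
      Tendsto (fun M : ℕ => FM δ M x) atTop (𝓝 (FF δ x)) := by
    rw [ae_restrict_iff' measurableSet_Ioi]
    filter_upwards with x hx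
    have hx0 : 0 < x := by have : 2 * Real.pi < x := hx; linarith
    exact FM_tendsto hS0 hx0
  have hmeas : AEStronglyMeasurable (fun x : ℝ => FF δ x)
      (volume.restrict (Ioi (2 * Real.pi))) :=
    aestronglyMeasurable_of_tendsto_ae atTop
      (fun M => (FM_cont δ M).aestronglyMeasurable) htend
  have hmeas2 : AEStronglyMeasurable (fun x : ℝ => ‖FF δ x‖ ^ 2)
      (volume.restrict (Ioi (2 * Real.pi))) := hmeas.norm.pow 2
  have hlin : ∫⁻ x in Ioi (2 * Real.pi), ENNReal.ofReal (‖FF δ x‖ ^ 2) ≤ ENNReal.ofReal R2 := by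
    calc ∫⁻ x in Ioi (2 * Real.pi), ENNReal.ofReal (‖FF δ x‖ ^ 2)
        = ∫⁻ x in Ioi (2 * Real.pi),
            liminf (fun M : ℕ => ENNReal.ofReal (‖FM δ M x‖ ^ 2)) atTop := by
          apply lintegral_congr_ae
          filter_upwards [htend] with x hx
          have h3 : Tendsto (fun M : ℕ => ENNReal.ofReal (‖FM δ M x‖ ^ 2)) atTop
              (𝓝 (ENNReal.ofReal (‖FF δ x‖ ^ 2))) :=
            ENNReal.tendsto_ofReal ((hx.norm).pow 2)
          exact h3.liminf_eq.symm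
      _ ≤ liminf (fun M : ℕ => ∫⁻ x in Ioi (2 * Real.pi),
            ENNReal.ofReal (‖FM δ M x‖ ^ 2)) atTop := by
          apply lintegral_liminf_le
          intro M
          exact ((FM_cont δ M).norm.pow 2).measurable.ennreal_ofReal
      _ ≤ ENNReal.ofReal R2 := by
          refine liminf_le_of_frequently_le' (Frequently.of_forall fun M => ?_)
          rw [← ofReal_integral_eq_lintegral_ofReal (FM_int hS0 M)
            (Eventually.of_forall fun x => by positivity)]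
          exact ENNReal.ofReal_le_ofReal (FM_bound h1 h2 hT M)
  have hint : IntegrableOn (fun x : ℝ => ‖FF δ x‖ ^ 2) (Ioi (2 * Real.pi)) := by
    refine ⟨hmeas2, ?_⟩
    rw [hasFiniteIntegral_iff_ofReal (Eventually.of_forall fun x => by positivity)]
    exact hlin.trans_lt ENNReal.ofReal_lt_top
  refine ⟨hint, ?_, hmeas⟩
  have h4 := ofReal_integral_eq_lintegral_ofReal hint
    (Eventually.of_forall fun x => by positivity)
  rw [← h4] at hlin
  exact (ENNReal.ofReal_le_ofReal_iff hR20).1 hlin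

theorem norm2_all (h1 : S_HIL) (h2 : S_LAP) : S_NORM2 := by
  intro T hT
  obtain ⟨i1, b1, m1⟩ := FF_int h1 h2 hT
  have hT0 : 0 < T := by norm_num at hT; linarith
  have hδ0 : 0 < 1 / (2 * T) := by positivity
  have hδ1 : 1 / (2 * T) ≤ 1 := by
    rw [div_le_one (by positivity)]
    linarith
  obtain ⟨i2, b2⟩ := PP_int hδ0 hδ1
  set δ := 1 / (2 * T) with hδ
  set R := 2970 / 10000 * Real.sqrt T * Real.log T ^ 2 with hR
  have hlog : 0 < Real.log T := Real.log_pos (by linarith)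
  have hR0 : 0 < R := by positivity
  have hm2 : AEStronglyMeasurable (fun x : ℝ => PP δ x) (volume.restrict (Ioi (2 * Real.pi))) :=
    (PP_cont δ).aestronglyMeasurable measurableSet_Ioi
  have hpt : ∀ x : ℝ, ‖FF δ x - PP δ x‖ ^ 2 ≤
      (1 + 2 / R) * ‖FF δ x‖ ^ 2 + (1 + R / 2) * ‖PP δ x‖ ^ 2 := by
    intro x
    have h3 : ‖FF δ x - PP δ x‖ ≤ ‖FF δ x‖ + ‖PP δ x‖ := norm_sub_le _ _
    set u := ‖FF δ x‖ with hu
    set v := ‖PP δ x‖ with hv
    have hu0 : 0 ≤ u := norm_nonneg _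
    have hv0 : 0 ≤ v := norm_nonneg _
    have h4 : ‖FF δ x - PP δ x‖ ^ 2 ≤ (u + v) ^ 2 := pow_le_pow_left₀ (norm_nonneg _) h3 2
    refine h4.trans ?_
    have h5 : (1 + 2 / R) * u ^ 2 + (1 + R / 2) * v ^ 2 - (u + v) ^ 2 =
        (2 * u - R * v) ^ 2 / (2 * R) := by
      field_simp
      ring
    have h6 : 0 ≤ (2 * u - R * v) ^ 2 / (2 * R) := by positivity
    linarith
  have hdom : IntegrableOn (fun x : ℝ => (1 + 2 / R) * ‖FF δ x‖ ^ 2 +
      (1 + R / 2) * ‖PP δ x‖ ^ 2) (Ioi (2 * Real.pi)) :=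
    (i1.const_mul _).add (i2.const_mul _)
  have hint : IntegrableOn (fun x : ℝ => ‖FF δ x - PP δ x‖ ^ 2) (Ioi (2 * Real.pi)) := by
    refine Integrable.mono' hdom ((m1.sub hm2).norm.pow 2) ?_
    filter_upwards with x
    rw [Real.norm_of_nonneg (by positivity)]
    exact hpt x
  refine ⟨hint, ?_⟩
  calc ∫ x in Ioi (2 * Real.pi), ‖FF δ x - PP δ x‖ ^ 2
      ≤ ∫ x in Ioi (2 * Real.pi), ((1 + 2 / R) * ‖FF δ x‖ ^ 2 + (1 + R / 2) * ‖PP δ x‖ ^ 2) :=
        setIntegral_mono_on hint hdom measurableSet_Ioi fun x _ => hpt x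
    _ = (1 + 2 / R) * (∫ x in Ioi (2 * Real.pi), ‖FF δ x‖ ^ 2) +
        (1 + R / 2) * ∫ x in Ioi (2 * Real.pi), ‖PP δ x‖ ^ 2 := by
        rw [integral_add (i1.const_mul _) (i2.const_mul _), integral_const_mul,
          integral_const_mul]
    _ ≤ (1 + 2 / R) * R ^ 2 + (1 + R / 2) * 4 := by
        refine add_le_add (mul_le_mul_of_nonneg_left b1 (by positivity))
          (mul_le_mul_of_nonneg_left b2 (by positivity))
    _ = (R + 2) ^ 2 := by
        field_simp
        ring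

end

end Pool.Agent.TH692.FM2
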