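import Pool.Agent.TH158.FM.Stm3
import Pool.Agent.TH475.J4850

/-! FM-RANGE2 (job 5023, helper692 for helper158): three numerical ranges -/

set_option autoImplicit false

namespace Pool.Agent.TH692.FM2

open Pool.Agent.TH158.FM Pool.Agent.TH475.J4850

lemma step2c (T T0 T1 a c : ℝ) (l : ℕ) (hc : 0 ≤ c) (h0 : 0 < T0)
    (hl : (2.7182818286 : ℝ) ^ l ≤ T0 ^ 10) (hT0 : T0 ≤ T)
    (hT1 : T ≤ T1) (ha : 0 ≤ a) (h4 : T1 ≤ 6.283 * a ^ 4) (hal : 4 * a + 1 ≤ c * ((l : ℝ) / 10) ^ 2) :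
    4 * (T / (2 * Real.pi)) ^ (1 / 4 : ℝ) + 1 ≤ c * Real.log T ^ 2 := by
  have h1 := logLB l T0 T h0 hl hT0
  have h2 := fub T T1 a (h0.le.trans hT0) hT1 ha h4
  have h3 : ((l : ℝ) / 10) ^ 2 ≤ Real.log T ^ 2 := pow_le_pow_left₀ (by positivity) h1 2
  have h5 := mul_le_mul_of_nonneg_left h3 hc
  linarith

lemma step3c (T T0 T1 a s c : ℝ) (l : ℕ) (hc : 0 ≤ c) (h0 : 0 < T0)
    (hl : (2.7182818286 : ℝ) ^ l ≤ T0 ^ 10) (hT0 : T0 ≤ T)
    (hT1 : T ≤ T1) (ha : 0 ≤ a) (h4 : T1 ≤ 6.283 * a ^ 4) (hs : 0 ≤ s) (hsl : s ^ 2 ≤ (l : ℝ) / 10)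
    (hal : 4 * a + 1 ≤ c * (((l : ℝ) / 10) ^ 2 * s)) :
    4 * (T / (2 * Real.pi)) ^ (1 / 4 : ℝ) + 1 ≤ c * Real.log T ^ (5 / 2 : ℝ) := by
  have h1 := logLB l T0 T h0 hl hT0
  have h2 := fub T T1 a (h0.le.trans hT0) hT1 ha h4
  have hl0 : (0 : ℝ) ≤ (l : ℝ) / 10 := by positivity
  have hx : 0 ≤ Real.log T := hl0.trans h1
  have h3 : ((l : ℝ) / 10) ^ 2 ≤ Real.log T ^ 2 := pow_le_pow_left₀ hl0 h1 2
  have h5 : s ≤ Real.sqrt (Real.log T) := Real.le_sqrt_of_sq_le (hsl.trans h1)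
  have h6 : Real.log T ^ (5 / 2 : ℝ) = Real.log T ^ 2 * Real.sqrt (Real.log T) := by
    rw [Real.sqrt_eq_rpow, ← Real.rpow_natCast (Real.log T) 2,
      ← Real.rpow_add_of_nonneg hx (by norm_num) (by norm_num)]
    norm_num
  rw [h6]
  have h7 : ((l : ℝ) / 10) ^ 2 * s ≤ Real.log T ^ 2 * Real.sqrt (Real.log T) :=
    mul_le_mul h3 h5 hs (by positivity)
  have h8 := mul_le_mul_of_nonneg_left h7 hc
  linarith

lemma ra (T : ℝ) (h1 : 5 * 10 ^ 8 ≤ T) (h2 : T ≤ 10 ^ 11) :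
    4 * (T / (2 * Real.pi)) ^ (1 / 4 : ℝ) + 1 ≤ 9 / 4 * Real.log T ^ 2 := by
  rcases le_total T 16030000000 with g0 | g0
  · exact step2c T (5 * 10 ^ 8) (16030000000) 224.75 (9 / 4) 200 (by norm_num) (by norm_num) (by norm_num) h1 g0
      (by norm_num) (by norm_num) (by norm_num)
  rcases le_total T 56360000000 with g1 | g1
  · exact step2c T (16030000000) (56360000000) 307.7525 (9 / 4) 234 (by norm_num) (by norm_num) (by norm_num) g0 g1
      (by norm_num) (by norm_num) (by norm_num)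
  rcases le_total T 86880000000 with g2 | g2
  · exact step2c T (56360000000) (86880000000) 342.9256 (9 / 4) 247 (by norm_num) (by norm_num) (by norm_num) g1 g2
      (by norm_num) (by norm_num) (by norm_num)
  rcases le_total T 98810000000 with g3 | g3
  · exact step2c T (86880000000) (98810000000) 354.1306 (9 / 4) 251 (by norm_num) (by norm_num) (by rw [show (251 : ℕ) = 150 + 101 from rfl, pow_add]; norm_num) g2 g3
      (by norm_num) (by norm_num) (by norm_num)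
  exact step2c T (98810000000) (10 ^ 11) 359.8006 (9 / 4) 253 (by norm_num) (by norm_num) (by rw [show (253 : ℕ) = 150 + 103 from rfl, pow_add]; norm_num) g3 h2
      (by norm_num) (by norm_num) (by norm_num)

lemma rb (T : ℝ) (h1 : 10 ^ 11 ≤ T) (h2 : T ≤ 5 * 10 ^ 12) :
    4 * (T / (2 * Real.pi)) ^ (1 / 4 : ℝ) + 1 ≤ 14 / 3 * Real.log T ^ 2 := by
  rcases le_total T 1951000000000 with g0 | g0
  · exact step2c T (10 ^ 11) (1951000000000) 746.5216 (14 / 3) 253 (by norm_num) (by norm_num) (by rw [show (253 : ℕ) = 150 + 103 from rfl, pow_add]; norm_num) h1 g0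
      (by norm_num) (by norm_num) (by norm_num)
  rcases le_total T 4650000000000 with g1 | g1
  · exact step2c T (1951000000000) (4650000000000) 927.53 (14 / 3) 282 (by norm_num) (by norm_num) (by rw [show (282 : ℕ) = 150 + 132 from rfl, pow_add]; norm_num) g0 g1
      (by norm_num) (by norm_num) (by norm_num)
  exact step2c T (4650000000000) (5 * 10 ^ 12) 987.695 (14 / 3) 291 (by norm_num) (by norm_num) (by rw [show (291 : ℕ) = 150 + 141 from rfl, pow_add]; norm_num) g1 h2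
      (by norm_num) (by norm_num) (by norm_num)

lemma rc (T : ℝ) (h1 : 10 ^ 13 ≤ T) (h2 : T ≤ 10 ^ 14) :
    4 * (T / (2 * Real.pi)) ^ (1 / 4 : ℝ) + 1 ≤ 36 / 25 * Real.log T ^ (5 / 2 : ℝ) := by
  rcases le_total T 60230000000000 with g0 | g0
  · exact step3c T (10 ^ 13) (60230000000000) 1759.59 5.468 (36 / 25) 299 (by norm_num) (by norm_num) (by rw [show (299 : ℕ) = 150 + 149 from rfl, pow_add]; norm_num) h1 g0
      (by norm_num) (by norm_num) (by norm_num) (by norm_num) (by norm_num)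
  exact step3c T (60230000000000) (10 ^ 14) 2036.533 5.6302 (36 / 25) 317 (by norm_num) (by norm_num) (by rw [show (317 : ℕ) = 150 + 167 from rfl, pow_add]; norm_num) g0 h2
      (by norm_num) (by norm_num) (by norm_num) (by norm_num) (by norm_num)

theorem range2_all : S_RANGE2 := ⟨ra, rb, rc⟩

end Pool.Agent.TH692.FM2
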