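import Pool.Agent.TH525.FM.Norm
import Pool.Agent.TH158.FM.Stm3

set_option autoImplicit false
set_option linter.dupNamespace false

/-! # Explicit fourth moment: the norm over `x > 2π`, assembly -/

namespace Pool.Agent.TH692.FM2

open Complex MeasureTheory Set Filter Topology Pool.Agent.TH158.FM Pool.Agent.TH525.FM
open scoped ENNReal

noncomputable section

theorem log_6283 : (1.8378 : ℝ) ≤ Real.log 6.2831 := by
  have h : ((2 : ℝ) ^ 232) ^ 2 ≤ 6.2831 ^ 175 := by norm_num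
  have h1 := Real.log_le_log (by norm_num) h
  rw [Real.log_pow, Real.log_pow, Real.log_pow] at h1
  have h2 := Real.log_two_gt_d9
  push_cast at h1
  linarith

theorem log_three : Real.log 3 ≤ (1.0989 : ℝ) := by
  have h : (3 : ℝ) ^ 41 ≤ 2 ^ 65 := by norm_num
  have h1 := Real.log_le_log (by norm_num) h
  rw [Real.log_pow, Real.log_pow] at h1
  have h2 := Real.log_two_lt_d9
  push_cast at h1
  linarith

theorem log_1000 : (18.42 : ℝ) ≤ Real.log (10 ^ 8) := by
  have h : ((2 : ℝ) ^ 17) ^ 17 ≤ 10 ^ 87 := by norm_num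
  have h1 := Real.log_le_log (by norm_num) h
  rw [Real.log_pow, Real.log_pow, Real.log_pow] at h1
  rw [Real.log_pow]
  have h2 := Real.log_two_gt_d9
  push_cast at h1
  linarith

/-- the numerical part: from the three Laplace sums to the final constant -/
theorem numeric {T l S C D0 D1 D2 : ℝ} (hT : 10 ^ 8 ≤ T) (hl : l = Real.log T)
    (hS0 : 0 < S) (hS : 1 / (2 * T) * (1 - 1 / 10 ^ 6) ≤ S) (hS' : S ≤ 1 / (2 * T))
    (hC : 1 - 1 / 10 ^ 6 ≤ C)
    (hD1 : D1 ≤ (Real.log (1 / (4 * Real.pi * S)) + 3) ^ 4 / 24)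
    (hD0 : D0 ≤ 1 / (Real.exp 1 * (4 * Real.pi * S)) *
      ((Real.log (3 / (4 * Real.pi * S)) + 3) ^ 4 / 24))
    (hD2 : D2 ≤ 4 / (Real.exp 1 ^ 2 * (4 * Real.pi * S) ^ 2) *
      ((Real.log (9 / (2 * (4 * Real.pi * S))) + 3) ^ 4 / 24))
    (h1 : 0 ≤ D1) (h2 : 0 ≤ D2) :
    1 / (2 * S) * D1 + Real.pi / C * (D0 + Real.sqrt D1 * Real.sqrt D2) ≤
      (2970 / 10000 * Real.sqrt T * l ^ 2) ^ 2 := by
  have hT0 : 0 < T := by norm_num at hT; linarith
  have hpi1 := Real.pi_gt_d6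
  have hpi2 := Real.pi_lt_d6
  have hpi0 := Real.pi_pos
  have hl0 : 18.42 ≤ l := by
    rw [hl]
    exact log_1000.trans (Real.log_le_log (by norm_num) hT)
  set q := 1 / (4 * Real.pi * S) with hq
  have hq0 : 0 < q := by positivity
  have hqT : q * 6.2831 ≤ T := by
    rw [hq, div_mul_eq_mul_div, one_mul, div_le_iff₀ (by positivity)]
    have h3 : 4 * Real.pi * (1 / (2 * T) * (1 - 1 / 10 ^ 6)) ≤ 4 * Real.pi * S :=
      mul_le_mul_of_nonneg_left hS (by positivity)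
    have h4 : T * (4 * Real.pi * (1 / (2 * T) * (1 - 1 / 10 ^ 6))) =
        2 * Real.pi * (1 - 1 / 10 ^ 6) := by field_simp; ring
    have h5 : T * (4 * Real.pi * (1 / (2 * T) * (1 - 1 / 10 ^ 6))) ≤ T * (4 * Real.pi * S) :=
      mul_le_mul_of_nonneg_left h3 hT0.le
    rw [h4] at h5
    norm_num at h5 ⊢
    linarith
  have hu : 2 * Real.pi * q ≤ 1.000002 * T := by
    have h4 : 2 * Real.pi * q = 1 / (2 * S) := by rw [hq]; field_simp; ring
    rw [h4, div_le_iff₀ (by positivity)]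
    have h5 : T * (1 / (2 * T) * (1 - 1 / 10 ^ 6)) ≤ T * S :=
      mul_le_mul_of_nonneg_left hS hT0.le
    have h6 : T * (1 / (2 * T) * (1 - 1 / 10 ^ 6)) = (1 - 1 / 10 ^ 6) / 2 := by field_simp
    rw [h6] at h5
    norm_num at h5 ⊢
    nlinarith
  have hq1 : 1 ≤ q := by
    rw [hq, le_div_iff₀ (by positivity), one_mul]
    have h3 : 1 / (2 * T) ≤ 1 / 2000 := by
      apply one_div_le_one_div_of_le (by norm_num)
      linarith
    have h4 : S ≤ 1 / 2000 := hS'.trans h3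
    nlinarith
  have hlq0 : 0 ≤ Real.log q := Real.log_nonneg hq1
  have hlq : Real.log q ≤ l - 1.8378 := by
    have h3 := Real.log_le_log (by positivity) hqT
    rw [Real.log_mul hq0.ne' (by norm_num), ← hl] at h3
    have := log_6283
    linarith
  have hl3 : 0 ≤ Real.log 3 := Real.log_nonneg (by norm_num)
  have hl3' := log_three
  have hA : Real.log q + 3 ≤ 1.0631 * l := by norm_num at *; linarith
  have e3 : Real.log (3 / (4 * Real.pi * S)) = Real.log 3 + Real.log q := by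
    rw [← Real.log_mul (by norm_num) hq0.ne', hq]
    congr 1
    ring
  have hB : Real.log (3 / (4 * Real.pi * S)) + 3 ≤ 1.1228 * l := by
    rw [e3]; norm_num at *; linarith
  have e9 : Real.log (9 / (2 * (4 * Real.pi * S))) = 2 * Real.log 3 - Real.log 2 + Real.log q := by
    have h3 : 9 / (2 * (4 * Real.pi * S)) = 3 ^ 2 / 2 * q := by
      rw [hq]
      field_simp
      ring
    rw [h3, Real.log_mul (by norm_num) hq0.ne', Real.log_div (by norm_num) (by norm_num),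
      Real.log_pow]
    push_cast
    ring
  have hl2 := Real.log_two_gt_d9
  have hl2' := Real.log_two_lt_d9
  have hCq : Real.log (9 / (2 * (4 * Real.pi * S))) + 3 ≤ 1.1448 * l := by
    rw [e9]; norm_num at *; linarith
  have hl23 : Real.log 2 ≤ Real.log 3 := Real.log_le_log (by norm_num) (by norm_num)
  have hA0 : 0 ≤ Real.log q + 3 := by linarith
  have hB0 : 0 ≤ Real.log (3 / (4 * Real.pi * S)) + 3 := by rw [e3]; linarith
  have hC0 : 0 ≤ Real.log (9 / (2 * (4 * Real.pi * S))) + 3 := by rw [e9]; linarith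
  have he := Real.exp_one_gt_d9
  have he0 := Real.exp_pos 1
  -- bounds for the three sums
  have b1 : D1 ≤ (1.0631 * l) ^ 4 / 24 :=
    hD1.trans (div_le_div_of_nonneg_right (pow_le_pow_left₀ hA0 hA 4) (by norm_num))
  have hinv : 1 / Real.exp 1 ≤ 0.3679 := by
    rw [div_le_iff₀ he0]
    linarith
  have b0 : D0 ≤ 0.3679 * q * ((1.1228 * l) ^ 4 / 24) := by
    refine hD0.trans ?_
    have h3 : 1 / (Real.exp 1 * (4 * Real.pi * S)) = 1 / Real.exp 1 * q := by
      rw [hq]; field_simp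
    rw [h3]
    refine mul_le_mul (mul_le_mul_of_nonneg_right hinv hq0.le)
      (div_le_div_of_nonneg_right (pow_le_pow_left₀ hB0 hB 4) (by norm_num)) (by positivity)
      (by positivity)
  have b2 : D2 ≤ (0.7358 * q) ^ 2 * ((1.1448 * l) ^ 4 / 24) := by
    refine hD2.trans ?_
    have h3 : 4 / (Real.exp 1 ^ 2 * (4 * Real.pi * S) ^ 2) = (2 * (1 / Real.exp 1) * q) ^ 2 := by
      rw [hq]; field_simp; ring
    rw [h3]
    refine mul_le_mul (pow_le_pow_left₀ (by positivity) ?_ 2)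
      (div_le_div_of_nonneg_right (pow_le_pow_left₀ hC0 hCq 4) (by norm_num)) (by positivity)
      (by positivity)
    apply mul_le_mul_of_nonneg_right _ hq0.le
    norm_num at hinv ⊢
    linarith
  have b12 : Real.sqrt D1 * Real.sqrt D2 ≤ (1.0631 * l) ^ 2 * (0.7358 * q) * (1.1448 * l) ^ 2 / 24 := by
    rw [← Real.sqrt_mul h1]
    apply Real.sqrt_le_iff.2
    refine ⟨by positivity, ?_⟩
    calc D1 * D2 ≤ (1.0631 * l) ^ 4 / 24 * ((0.7358 * q) ^ 2 * ((1.1448 * l) ^ 4 / 24)) :=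
          mul_le_mul b1 b2 h2 (by positivity)
      _ = ((1.0631 * l) ^ 2 * (0.7358 * q) * (1.1448 * l) ^ 2 / 24) ^ 2 := by ring
  have hCpos : 0 < C := by norm_num at hC; linarith
  have hpC : Real.pi / C ≤ Real.pi * 1.000002 := by
    rw [div_le_iff₀ hCpos]
    norm_num at hC ⊢
    nlinarith
  have hsum0 : D0 + Real.sqrt D1 * Real.sqrt D2 ≤
      q * l ^ 4 * ((0.3679 * 1.1228 ^ 4 + 0.7358 * 1.0631 ^ 2 * 1.1448 ^ 2) / 24) := by
    calc D0 + Real.sqrt D1 * Real.sqrt D2 ≤ 0.3679 * q * ((1.1228 * l) ^ 4 / 24) +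
          (1.0631 * l) ^ 2 * (0.7358 * q) * (1.1448 * l) ^ 2 / 24 := add_le_add b0 b12
      _ = q * l ^ 4 * ((0.3679 * 1.1228 ^ 4 + 0.7358 * 1.0631 ^ 2 * 1.1448 ^ 2) / 24) := by ring
  have h1S : 1 / (2 * S) = 2 * Real.pi * q := by rw [hq]; field_simp; ring
  have t1 : 1 / (2 * S) * D1 ≤ 1.000002 * T * ((1.0631 * l) ^ 4 / 24) := by
    rw [h1S]
    exact mul_le_mul hu b1 h1 (by positivity)
  have t2 : Real.pi / C * (D0 + Real.sqrt D1 * Real.sqrt D2) ≤
      1.000002 * (1.000002 * T) / 2 * l ^ 4 *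
        ((0.3679 * 1.1228 ^ 4 + 0.7358 * 1.0631 ^ 2 * 1.1448 ^ 2) / 24) := by
    calc Real.pi / C * (D0 + Real.sqrt D1 * Real.sqrt D2)
        ≤ Real.pi / C * (q * l ^ 4 *
          ((0.3679 * 1.1228 ^ 4 + 0.7358 * 1.0631 ^ 2 * 1.1448 ^ 2) / 24)) :=
          mul_le_mul_of_nonneg_left hsum0 (by positivity)
      _ ≤ Real.pi * 1.000002 * (q * l ^ 4 *
          ((0.3679 * 1.1228 ^ 4 + 0.7358 * 1.0631 ^ 2 * 1.1448 ^ 2) / 24)) :=
          mul_le_mul_of_nonneg_right hpC (by positivity)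
      _ = 1.000002 * (2 * Real.pi * q) / 2 * l ^ 4 *
          ((0.3679 * 1.1228 ^ 4 + 0.7358 * 1.0631 ^ 2 * 1.1448 ^ 2) / 24) := by ring
      _ ≤ 1.000002 * (1.000002 * T) / 2 * l ^ 4 *
          ((0.3679 * 1.1228 ^ 4 + 0.7358 * 1.0631 ^ 2 * 1.1448 ^ 2) / 24) := by
          apply mul_le_mul_of_nonneg_right _ (by positivity)
          apply mul_le_mul_of_nonneg_right _ (by positivity)
          apply div_le_div_of_nonneg_right _ (by norm_num)
          exact mul_le_mul_of_nonneg_left hu (by norm_num)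
  have hR : (2970 / 10000 * Real.sqrt T * l ^ 2) ^ 2 = 0.088209 * (T * l ^ 4) := by
    have : (2970 / 10000 * Real.sqrt T * l ^ 2) ^ 2 =
        0.088209 * (Real.sqrt T ^ 2 * l ^ 4) := by ring
    rw [this, Real.sq_sqrt hT0.le]
  rw [hR]
  have hTl : 0 < T * l ^ 4 := by positivity
  have e1 : 1.000002 * T * ((1.0631 * l) ^ 4 / 24) = 1.000002 * 1.0631 ^ 4 / 24 * (T * l ^ 4) := by
    ring
  have e2 : 1.000002 * (1.000002 * T) / 2 * l ^ 4 *
        ((0.3679 * 1.1228 ^ 4 + 0.7358 * 1.0631 ^ 2 * 1.1448 ^ 2) / 24) =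
        1.000002 * 1.000002 / 2 *
        ((0.3679 * 1.1228 ^ 4 + 0.7358 * 1.0631 ^ 2 * 1.1448 ^ 2) / 24) * (T * l ^ 4) := by ring
  rw [e1] at t1
  rw [e2] at t2
  refine (add_le_add t1 t2).trans ?_
  rw [← add_mul]
  apply mul_le_mul_of_nonneg_right _ hTl.le
  norm_num

end

end Pool.Agent.TH692.FM2
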